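import Pool.Agent.H914R2.Weil

/-!
# Cycles modulo numerical equivalence and the numerical standard conjecture of Hodge type

`𝒱` is a class of smooth projective varieties over a field which is closed under products.
-/

set_option autoImplicit false

open CategoryTheory AlgebraicGeometry

universe u v

namespace Pool.Agent.U935.AN

open Pool.Agent.H914 Pool.Agent.H914.VarClass Pool.Agent.H914.VarClass.Obj

/-- The data of the rings `N(X)` of algebraic cycles with rational coefficients modulo numerical
equivalence on the varieties of the class `𝒱`. -/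
structure NumData {k : Type u} [Field k] (𝒱 : VarClass k) where
  /-- the ring `N(X)` -/
  N : 𝒱.Obj → Type v
  [ring : ∀ X, CommRing (N X)]
  [algebra : ∀ X, Algebra ℚ (N X)]
  /-- `gr X i` is `N^i(X)` -/
  gr : ∀ X, ℕ → Submodule ℚ (N X)
  /-- the degree of zero-cycles, extended by zero -/
  deg : ∀ X, N X →ₗ[ℚ] ℚ
  /-- pull-back under the first projection -/
  p₁ : ∀ X Y : 𝒱.Obj, N X →ₐ[ℚ] N (X.prod Y)
  /-- pull-back under the second projection -/
  p₂ : ∀ X Y : 𝒱.Obj, N Y →ₐ[ℚ] N (X.prod Y)

attribute [instance] NumData.ring NumData.algebra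

variable {k : Type u} [Field k] {𝒱 : VarClass k} (T : NumData.{u, v} 𝒱)

/-- `N(X)` is a graded ring, and the degree is zero outside of `N^(dim X)(X)`. -/
structure IsGraded : Prop where
  one_mem : ∀ X, (1 : T.N X) ∈ T.gr X 0
  mul_mem : ∀ {X : 𝒱.Obj} {i j : ℕ} {a b : T.N X}, a ∈ T.gr X i → b ∈ T.gr X j →
    a * b ∈ T.gr X (i + j)
  deg_eq_zero : ∀ {X : 𝒱.Obj} {i : ℕ} {a : T.N X}, a ∈ T.gr X i → i ≠ X.dim → T.deg X a = 0

/-- Numerical equivalence: a class is zero if its products with all classes of complementary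
codimension have degree zero. -/
def IsNumerical : Prop :=
  ∀ {X : 𝒱.Obj} {i : ℕ} {a : T.N X}, a ∈ T.gr X i →
    (∀ (j : ℕ) (b : T.N X), i + j = X.dim → b ∈ T.gr X j → T.deg X (a * b) = 0) → a = 0

/-- The pull-backs from the factors of a product respect the codimension, and the degree of the
exterior product of two classes is the product of the degrees. -/
structure HasProducts : Prop where
  p₁_mem : ∀ {X Y : 𝒱.Obj} {i : ℕ} {a : T.N X}, a ∈ T.gr X i → T.p₁ X Y a ∈ T.gr (X.prod Y) i
  p₂_mem : ∀ {X Y : 𝒱.Obj} {i : ℕ} {b : T.N Y}, b ∈ T.gr Y i → T.p₂ X Y b ∈ T.gr (X.prod Y) i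
  deg_prod : ∀ {X Y : 𝒱.Obj} (a : T.N X) (b : T.N Y),
    T.deg (X.prod Y) (T.p₁ X Y a * T.p₂ X Y b) = T.deg X a * T.deg Y b

/-- The formal properties of the rings of algebraic cycles modulo numerical equivalence. -/
structure IsNum : Prop where
  graded : IsGraded T
  numerical : IsNumerical T
  products : HasProducts T

/-- The numerical standard conjecture of Hodge type for `(X, L)` in codimension `i`, where
`2 i + s = dim X`: `(-1)^i deg (L^s x^2) > 0` for all nonzero `x ∈ N^i(X)` with `L^(s+1) x = 0`. -/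
def HodgeAt (X : 𝒱.Obj) (L : T.N X) (i s : ℕ) : Prop :=
  ∀ x ∈ T.gr X i, x ≠ 0 → L ^ (s + 1) * x = 0 → 0 < (-1) ^ i * T.deg X (L ^ s * x ^ 2)

/-- The numerical standard conjecture of Hodge type for `(X, L)`. -/
def Hodge (X : 𝒱.Obj) (L : T.N X) : Prop := ∀ i s : ℕ, 2 * i + s = X.dim → HodgeAt T X L i s

/-- No nonzero primitive class of the middle codimension `n = dim X / 2` has self-intersection
number zero. -/
def Anisotropic (X : 𝒱.Obj) (L : T.N X) (n : ℕ) : Prop :=
  ∀ z ∈ T.gr X n, L * z = 0 → T.deg X (z ^ 2) = 0 → z = 0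

/-- There are `r` linearly independent primitive classes of the middle codimension `n = dim X / 2`
which span a totally isotropic subspace: all their products have degree zero. -/
def HasIsotropic (X : 𝒱.Obj) (L : T.N X) (n r : ℕ) : Prop :=
  ∃ w : Fin r → T.N X, LinearIndependent ℚ w ∧ (∀ i, w i ∈ T.gr X n) ∧ (∀ i, L * w i = 0) ∧
    ∀ i j, T.deg X (w i * w j) = 0

/-- `E` is a curve and `e` the class of a point. -/
structure IsCurve (E : 𝒱.Obj) (e : T.N E) : Prop where
  dim : E.dim = 1
  point : e ∈ T.gr E 1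
  deg_point : T.deg E e = 1

/-- `S` is a surface with a class `f` of positive self-intersection number and classes `g`, `g'` of
divisors which are orthogonal to `f` and to each other and have the same negative self-intersection
number. For example `S = E × E` for an elliptic curve `E`, with the sum `f` and the difference `g` of
the classes of the two factors, and `g' = Δ - f`. -/
structure IsSurface (S : 𝒱.Obj) (f g g' : T.N S) : Prop where
  dim : S.dim = 2
  f_mem : f ∈ T.gr S 1
  g_mem : g ∈ T.gr S 1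
  g'_mem : g' ∈ T.gr S 1
  fg : f * g = 0
  fg' : f * g' = 0
  gg' : g * g' = 0
  deg_f : 0 < T.deg S (f ^ 2)
  deg_g : T.deg S (g ^ 2) < 0
  deg_g' : T.deg S (g' ^ 2) = T.deg S (g ^ 2)

/-- A family `Pol` of polarised varieties (`Pol X L`: the class `L ∈ N^1(X)` is one of the
polarisations of `X` under consideration; `L^(dim X)` has positive degree) which contains with
`(X, L)` also `(X × E, L ⊠ e)` and `(X × S, L ⊠ f)`. -/
structure IsFamily (Pol : ∀ X : 𝒱.Obj, T.N X → Prop) (E : 𝒱.Obj) (e : T.N E) (S : 𝒱.Obj)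
    (f : T.N S) : Prop where
  mem : ∀ {X : 𝒱.Obj} {L : T.N X}, Pol X L → L ∈ T.gr X 1
  pos : ∀ {X : 𝒱.Obj} {L : T.N X}, Pol X L → 0 < T.deg X (L ^ X.dim)
  prod_curve : ∀ {X : 𝒱.Obj} {L : T.N X}, Pol X L → Pol (X.prod E) (T.p₁ X E L + T.p₂ X E e)
  prod_surface : ∀ {X : 𝒱.Obj} {L : T.N X}, Pol X L → Pol (X.prod S) (T.p₁ X S L + T.p₂ X S f)

section all

variable (Pol : ∀ X : 𝒱.Obj, T.N X → Prop) (A : Set ℕ)

/-- The standard conjecture of Hodge type for all members of the family. -/
def AllHodge : Prop := ∀ (X : 𝒱.Obj) (L : T.N X), Pol X L → Hodge T X L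

/-- Anisotropy in the middle codimension `n` for all members of the family with `dim X = 2 n`,
`n ∈ A`. -/
def AllAnisotropic : Prop := ∀ (X : 𝒱.Obj) (L : T.N X), Pol X L → ∀ n ∈ A, 2 * n = X.dim →
  Anisotropic T X L n

/-- The Witt indices of the intersection forms on the primitive classes of the middle codimension
`n` are bounded, for all members of the family with `dim X = 2 n`, `n ∈ A`. -/
def BoundedWitt : Prop := ∃ R : ℕ, ∀ (X : 𝒱.Obj) (L : T.N X), Pol X L → ∀ n ∈ A,
  2 * n = X.dim → ∀ r : ℕ, HasIsotropic T X L n r → r ≤ R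

end all

end Pool.Agent.U935.AN
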