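import Pool.Agent.U935.AN.Defs

/-!
# The numerical standard conjecture of Hodge type and anisotropy: proofs
-/

set_option autoImplicit false
set_option linter.unusedSectionVars false

open CategoryTheory AlgebraicGeometry Finset

universe u v

namespace Pool.Agent.U935.AN

open Pool.Agent.H914 Pool.Agent.H914.VarClass Pool.Agent.H914.VarClass.Obj

/-- the rings together with their properties -/
structure NumRings {k : Type u} [Field k] (𝒱 : VarClass k) extends NumData.{u, v} 𝒱 where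
  num : IsNum toNumData

attribute [local instance] NumData.ring NumData.algebra

variable {k : Type u} [Field k] {𝒱 : VarClass k} {T : NumRings.{u, v} 𝒱} {X Y E S : 𝒱.Obj}


lemma top_zero {i : ℕ} {a : T.N X} (ha : a ∈ T.gr X i) (h : X.dim < i) : a = 0 :=
  T.num.numerical ha (fun j _ hj _ => by omega)

lemma pow_mem {i : ℕ} {a : T.N X} (ha : a ∈ T.gr X i) (n : ℕ) : a ^ n ∈ T.gr X (i * n) := by
  induction n with
  | zero => rw [pow_zero, mul_zero]; exact T.num.graded.one_mem X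
  | succ n ih => rw [pow_succ, mul_add, mul_one]; exact T.num.graded.mul_mem ih ha

lemma exists_dual {i : ℕ} {a : T.N X} (ha : a ∈ T.gr X i) (h0 : a ≠ 0) :
    ∃ j b, i + j = X.dim ∧ b ∈ T.gr X j ∧ T.deg X (a * b) ≠ 0 := by
  by_contra hcon
  apply h0
  apply T.num.numerical ha
  intro j b hj hb
  by_contra hne
  exact hcon ⟨j, b, hj, hb, hne⟩

/-- the degree of a product with factors from the two sides -/
lemma deg_pp (a a' : T.N X) (b b' : T.N Y) :
    T.deg (X.prod Y) ((T.p₁ X Y a * T.p₂ X Y b) * (T.p₁ X Y a' * T.p₂ X Y b')) =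
      T.deg X (a * a') * T.deg Y (b * b') := by
  rw [← T.num.products.deg_prod]
  congr 1
  rw [map_mul (T.p₁ X Y), map_mul (T.p₂ X Y)]
  ring

/-- the product of a nonzero class with a class which is not numerically trivial -/
lemma pp_ne_zero {i : ℕ} {a : T.N X} (ha : a ∈ T.gr X i) (h0 : a ≠ 0) {b b' : T.N Y}
    (hb : T.deg Y (b * b') ≠ 0) : T.p₁ X Y a * T.p₂ X Y b ≠ 0 := by
  obtain ⟨j, c, -, -, hc⟩ := exists_dual ha h0
  intro h1
  have h2 := deg_pp a c b b'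
  rw [h1, zero_mul, map_zero] at h2
  exact mul_ne_zero hc hb h2.symm

section curve

variable {L x : T.N X} {e : T.N E} (hE : E.dim = 1) (he : e ∈ T.gr E 1) (hd : T.deg E e = 1)

include hE he in
lemma e_sq : e ^ 2 = 0 := top_zero (pow_mem he 2) (by omega)

include hE he in
lemma pow_pol (n : ℕ) : (T.p₁ X E L + T.p₂ X E e) ^ (n + 1) =
    T.p₁ X E (L ^ (n + 1)) + (n + 1 : ℚ) • (T.p₁ X E (L ^ n) * T.p₂ X E e) := by
  have h1 : T.p₂ X E e ^ 2 = 0 := by rw [← map_pow, e_sq hE he, map_zero]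
  induction n with
  | zero =>
    simp
  | succ n ih =>
    rw [pow_succ, ih]
    simp only [Algebra.smul_def, map_pow, map_add, map_natCast, map_one]
    push_cast
    linear_combination (((n : T.N (X.prod E)) + 1) * T.p₁ X E L ^ n) * h1

/-- the primitive class on `X × E` -/
noncomputable def step (s : ℕ) (L x : T.N X) (e : T.N E) : T.N (X.prod E) :=
  (s + 1 : ℚ) • (T.p₁ X E x * T.p₂ X E e) - T.p₁ X E (L * x)

include hE he hd

/-- one step towards the middle dimension -/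
lemma step_spec {i s : ℕ} (hL : L ∈ T.gr X 1) (hx : x ∈ T.gr X i) (hdim : 2 * i + (s + 1) = X.dim)
    (hk : L ^ (s + 2) * x = 0) :
    step s L x e ∈ T.gr (X.prod E) (i + 1) ∧
    (T.p₁ X E L + T.p₂ X E e) ^ (s + 1) * step s L x e = 0 ∧
    T.deg (X.prod E) ((T.p₁ X E L + T.p₂ X E e) ^ s * step s L x e ^ 2) =
      -((s + 2 : ℚ) * T.deg X (L ^ (s + 1) * x ^ 2)) ∧
    (x ≠ 0 → step s L x e ≠ 0) := by
  have h1 : T.p₂ X E e ^ 2 = 0 := by rw [← map_pow, e_sq hE he, map_zero]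
  have hk' : T.p₁ X E L ^ (s + 2) * T.p₁ X E x = 0 := by rw [← map_pow, ← map_mul, hk, map_zero]
  have d0 : ∀ a : T.N X, T.deg (X.prod E) (T.p₁ X E a) = 0 := by
    intro a
    have h2 := T.num.products.deg_prod a (1 : T.N E)
    rwa [map_one, mul_one, T.num.graded.deg_eq_zero (T.num.graded.one_mem E) (by omega), mul_zero] at h2
  refine ⟨?_, ?_, ?_, ?_⟩
  · apply Submodule.sub_mem
    · exact Submodule.smul_mem _ _ (T.num.graded.mul_mem (T.num.products.p₁_mem hx) (T.num.products.p₂_mem he))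
    · have := T.num.products.p₁_mem (Y := E) (T.num.graded.mul_mem hL hx)
      rwa [add_comm] at this
  · rw [pow_pol hE he, step]
    simp only [Algebra.smul_def, map_pow, map_add, map_natCast, map_one, map_mul]
    linear_combination (-1) * hk' + (((s : T.N (X.prod E)) + 1) ^ 2 * T.p₁ X E L ^ s * T.p₁ X E x) * h1
  · have h3 : (T.p₁ X E L + T.p₂ X E e) ^ s * step s L x e ^ 2 =
        T.p₁ X E (L ^ (s + 2) * x ^ 2) +
          (-(s + 2 : ℚ)) • (T.p₁ X E (L ^ (s + 1) * x ^ 2) * T.p₂ X E e) := by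
      rcases s with - | s
      · rw [step]
        simp only [Algebra.smul_def, map_pow, map_one, map_mul, map_neg, map_ofNat,
          Nat.cast_zero, pow_zero, zero_add, one_mul]
        linear_combination (T.p₁ X E x ^ 2) * h1
      · rw [pow_pol hE he, step]
        simp only [Algebra.smul_def, map_pow, map_add, map_natCast, map_one, map_mul, map_neg,
          map_ofNat]
        push_cast
        linear_combination (T.p₁ X E L ^ (s + 1) * T.p₁ X E x ^ 2 * ((s : T.N (X.prod E)) + 2) ^ 2 +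
          (s + 1) * (s + 2) ^ 2 * T.p₁ X E L ^ s * T.p₁ X E x ^ 2 * T.p₂ X E e -
          2 * (s + 1) * (s + 2) * T.p₁ X E L ^ (s + 1) * T.p₁ X E x ^ 2) * h1
    rw [h3, map_add, d0, map_smul, T.num.products.deg_prod, hd, zero_add, mul_one, smul_eq_mul]
    ring
  · intro hx0 h0
    obtain ⟨j, b, -, -, hb⟩ := exists_dual hx hx0
    have h2 : T.deg (X.prod E) (step s L x e * T.p₁ X E b) = (s + 1) * T.deg X (x * b) := by
      have h3 : step s L x e * T.p₁ X E b =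
          (s + 1 : ℚ) • (T.p₁ X E (x * b) * T.p₂ X E e) - T.p₁ X E (L * x * b) := by
        rw [step]
        simp only [Algebra.smul_def, map_mul]
        ring
      rw [h3, map_sub, d0, map_smul, T.num.products.deg_prod, hd, mul_one, sub_zero, smul_eq_mul]
    rw [h0, zero_mul, map_zero] at h2
    exact mul_ne_zero (by positivity) hb h2.symm

end curve

variable {Pol : ∀ X : 𝒱.Obj, T.N X → Prop} {e : T.N E} {f g g' : T.N S}
  (hF : IsFamily T.toNumData Pol E e S f) (hE : IsCurve T.toNumData E e)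
  (hS : IsSurface T.toNumData S f g g')

include hF hE hS

/-- a primitive class gives a class in the middle dimension with the same sign -/
lemma to_middle (s : ℕ) : ∀ (X : 𝒱.Obj) (L x : T.N X) (i : ℕ), Pol X L → x ∈ T.gr X i → x ≠ 0 →
    2 * i + s = X.dim → L ^ (s + 1) * x = 0 →
    ∃ (Y : 𝒱.Obj) (M z : T.N Y) (n : ℕ) (c : ℚ), Pol Y M ∧ z ∈ T.gr Y n ∧ z ≠ 0 ∧ 2 * n = Y.dim ∧
      M * z = 0 ∧ 0 < c ∧ (-1) ^ n * T.deg Y (z ^ 2) = c * ((-1) ^ i * T.deg X (L ^ s * x ^ 2)) := by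
  induction s with
  | zero =>
    intro X L x i hL hx hx0 hd hk
    exact ⟨X, L, x, i, 1, hL, hx, hx0, by omega, by rwa [zero_add, pow_one] at hk, one_pos, by
      rw [pow_zero, one_mul, one_mul]⟩
  | succ s ih =>
    intro X L x i hL hx hx0 hd hk
    obtain ⟨h1, h2, h3, h4⟩ := step_spec hE.dim hE.point hE.deg_point (hF.mem hL) hx hd hk
    obtain ⟨Y, M, z, n, c, h5, h6, h7, h8, h9, h10, h11⟩ := ih (X.prod E) _ _ (i + 1)
      (hF.prod_curve hL) h1 (h4 hx0) (by rw [dim_prod, hE.dim]; omega) h2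
    refine ⟨Y, M, z, n, c * (s + 2), h5, h6, h7, h8, h9, by positivity, ?_⟩
    rw [h11, h3, pow_succ]
    ring

lemma f_cube : f ^ 3 = 0 := top_zero (pow_mem hS.f_mem 3) (by rw [hS.dim]; omega)

/-- iterated products with `S` -/
lemma tower {L : T.N X} (hL : Pol X L) (m : ℕ) :
    ∃ (Y : 𝒱.Obj) (φ : T.N X →ₐ[ℚ] T.N Y) (ζ Γ : T.N Y) (c : ℚ), Y.dim = X.dim + 2 * m ∧
      (∀ i a, a ∈ T.gr X i → φ a ∈ T.gr Y i) ∧ ζ ∈ T.gr Y 1 ∧ Γ ∈ T.gr Y m ∧ ζ ^ (2 * m + 1) = 0 ∧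
      ζ * Γ = 0 ∧ 0 < c ∧ (∀ a, T.deg Y (φ a * ζ ^ (2 * m)) = c * T.deg X a) ∧
      (∀ a, T.deg Y (φ a * Γ ^ 2) = T.deg S (g ^ 2) ^ m * T.deg X a) ∧ Pol Y (φ L + ζ) := by
  induction m with
  | zero =>
    refine ⟨X, AlgHom.id ℚ _, 0, 1, 1, by omega, fun i a ha => ha, Submodule.zero_mem _,
      T.num.graded.one_mem X, by simp, by simp, one_pos, fun a => by simp, fun a => by simp, by simpa using hL⟩
  | succ m ih =>
    obtain ⟨Y, φ, ζ, Γ, c, h1, h2, h3, h4, h5, h6, h7, h8, h9, h10⟩ := ih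
    have hf3 : T.p₂ Y S f ^ 3 = 0 := by rw [← map_pow, f_cube hF hE hS, map_zero]
    have hz : T.p₁ Y S ζ ^ (2 * m + 1) = 0 := by rw [← map_pow, h5, map_zero]
    have hbin : (T.p₁ Y S ζ + T.p₂ Y S f) ^ (2 * (m + 1)) =
        ((2 * (m + 1)).choose (2 * m) : ℚ) • (T.p₁ Y S (ζ ^ (2 * m)) * T.p₂ Y S (f ^ 2)) := by
      rw [add_pow, sum_eq_single (2 * m)]
      · rw [show 2 * (m + 1) - 2 * m = 2 by omega, map_pow, map_pow, Algebra.smul_def, map_natCast]
        ring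
      · intro b hb hne
        rcases lt_or_gt_of_ne hne with h | h
        · obtain ⟨c', hc'⟩ := Nat.exists_eq_add_of_le (show 3 ≤ 2 * (m + 1) - b by omega)
          rw [hc', pow_add, hf3]
          ring
        · obtain ⟨c', hc'⟩ := Nat.exists_eq_add_of_le (show 2 * m + 1 ≤ b by omega)
          rw [hc', pow_add, hz]
          ring
      · intro h
        exact absurd (mem_range.2 (by omega)) h
    refine ⟨Y.prod S, (T.p₁ Y S).comp φ, T.p₁ Y S ζ + T.p₂ Y S f, T.p₁ Y S Γ * T.p₂ Y S g,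
      ((2 * (m + 1)).choose (2 * m) : ℚ) * T.deg S (f ^ 2) * c, ?_, ?_, ?_, ?_, ?_, ?_, ?_, ?_, ?_, ?_⟩
    · rw [dim_prod, h1, hS.dim]
      ring
    · exact fun i a ha => T.num.products.p₁_mem (h2 i a ha)
    · exact Submodule.add_mem _ (T.num.products.p₁_mem h3) (T.num.products.p₂_mem hS.f_mem)
    · exact T.num.graded.mul_mem (T.num.products.p₁_mem h4) (T.num.products.p₂_mem hS.g_mem)
    · exact (Commute.all _ _).add_pow_eq_zero_of_add_le_succ_of_pow_eq_zero hz hf3 (by omega)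
    · have e1 : (T.p₁ Y S ζ + T.p₂ Y S f) * (T.p₁ Y S Γ * T.p₂ Y S g) =
          T.p₁ Y S (ζ * Γ) * T.p₂ Y S g + T.p₁ Y S Γ * T.p₂ Y S (f * g) := by
        rw [map_mul, map_mul]
        ring
      rw [e1, h6, hS.fg, map_zero, map_zero, zero_mul, mul_zero, add_zero]
    · have := hS.deg_f
      have h11 : 0 < (2 * (m + 1)).choose (2 * m) := Nat.choose_pos (by omega)
      positivity
    · intro a
      have e1 : (T.p₁ Y S).comp φ a * (T.p₁ Y S ζ + T.p₂ Y S f) ^ (2 * (m + 1)) =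
          ((2 * (m + 1)).choose (2 * m) : ℚ) • (T.p₁ Y S (φ a * ζ ^ (2 * m)) * T.p₂ Y S (f ^ 2)) := by
        rw [hbin, AlgHom.comp_apply, map_mul, mul_smul_comm, mul_assoc]
      rw [e1, map_smul, T.num.products.deg_prod, h8, smul_eq_mul]
      ring
    · intro a
      have e1 : (T.p₁ Y S).comp φ a * (T.p₁ Y S Γ * T.p₂ Y S g) ^ 2 =
          T.p₁ Y S (φ a * Γ ^ 2) * T.p₂ Y S (g ^ 2) := by
        rw [AlgHom.comp_apply, map_mul, map_pow, map_pow]
        ring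
      rw [e1, T.num.products.deg_prod, h9, pow_succ]
      ring
    · have e1 : (T.p₁ Y S).comp φ L + (T.p₁ Y S ζ + T.p₂ Y S f) =
          T.p₁ Y S (φ L + ζ) + T.p₂ Y S f := by
        rw [AlgHom.comp_apply, map_add]
        ring
      rw [e1]
      exact hF.prod_surface h10

omit hF hE hS in
/-- positive rational numbers are sums of four squares -/
lemma four_squares {q : ℚ} (hq : 0 < q) : ∃ r : Fin 4 → ℚ, ∑ t, r t ^ 2 = q := by
  obtain ⟨a, b, c, d, h⟩ := Nat.sum_four_squares (q.num.toNat * q.den)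
  have hd : (q.den : ℚ) ≠ 0 := by exact_mod_cast q.den_nz
  have hn : ((q.num.toNat : ℕ) : ℚ) = (q.num : ℚ) := by
    have h1 : ((q.num.toNat : ℕ) : ℤ) = q.num := Int.toNat_of_nonneg (Rat.num_pos.2 hq).le
    exact_mod_cast h1
  refine ⟨![a / q.den, b / q.den, c / q.den, d / q.den], ?_⟩
  have h2 : (a : ℚ) ^ 2 + b ^ 2 + c ^ 2 + d ^ 2 = q.num * q.den := by
    rw [← hn]
    exact_mod_cast h
  have h3 : (q.num : ℚ) = q * q.den := by rw [Rat.mul_den_eq_num]
  rw [Fin.sum_univ_four]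
  simp only [Matrix.cons_val_zero, Matrix.cons_val_one, Matrix.cons_val]
  field_simp
  rw [h2, h3]
  ring

/-- **A primitive middle class with negative sign gives an isotropic primitive middle class.** -/
lemma isotropic {L z : T.N X} {n : ℕ} (hL : Pol X L) (hz : z ∈ T.gr X n) (hn : 1 ≤ n)
    (hd : 2 * n = X.dim) (hk : L * z = 0) (hneg : (-1) ^ n * T.deg X (z ^ 2) < 0) :
    ∃ (Y : 𝒱.Obj) (M w : T.N Y) (m : ℕ), Pol Y M ∧ w ∈ T.gr Y m ∧ w ≠ 0 ∧ 2 * m = Y.dim ∧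
      M * w = 0 ∧ T.deg Y (w ^ 2) = 0 := by
  obtain ⟨Y, φ, ζ, Γ, c, h1, h2, h3, h4, h5, h6, h7, h8, h9, h10⟩ := tower hF hE hS hL n
  -- the string class on `Y`
  obtain ⟨v, hv⟩ : ∃ v : T.N Y, v = ∑ a ∈ range (2 * n + 1), (-φ L) ^ a * ζ ^ (2 * n + 1 - 1 - a) :=
    ⟨_, rfl⟩
  have hLtop : φ L ^ (2 * n + 1) = 0 := by
    rw [← map_pow, top_zero (pow_mem (hF.mem hL) (2 * n + 1)) (by omega), map_zero]
  have hv1 : (φ L + ζ) * v = 0 := by
    have e1 := geom_sum₂_mul (-φ L) ζ (2 * n + 1)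
    rw [← hv, neg_pow, hLtop, h5, mul_zero, sub_zero] at e1
    linear_combination (-1) * e1
  have hζv : ζ * v = (-φ L) * v := by linear_combination hv1
  have hpow : ∀ b : ℕ, (-φ L) ^ b * v = ζ ^ b * v := by
    intro b
    induction b with
    | zero => rw [pow_zero, pow_zero]
    | succ b ih => rw [pow_succ', mul_assoc, ih, pow_succ']; linear_combination (-ζ ^ b) * hζv
  have hvv : v ^ 2 = (2 * n + 1 : ℚ) • (ζ ^ (2 * n) * v) := by
    have e1 : v ^ 2 = ∑ a ∈ range (2 * n + 1), ((-φ L) ^ a * ζ ^ (2 * n + 1 - 1 - a)) * v := by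
      rw [← sum_mul, ← hv, sq]
    have e2 : ∀ a ∈ range (2 * n + 1), ((-φ L) ^ a * ζ ^ (2 * n + 1 - 1 - a)) * v =
        ζ ^ (2 * n) * v := by
      intro a ha
      rw [mem_range] at ha
      have e3 : ζ ^ (2 * n) = ζ ^ (2 * n + 1 - 1 - a) * ζ ^ a := by
        rw [← pow_add]
        congr 1
        omega
      rw [e3, mul_assoc (ζ ^ (2 * n + 1 - 1 - a)), ← hpow a]
      ring
    rw [e1, sum_congr rfl e2, sum_const, card_range, ← Nat.cast_smul_eq_nsmul ℚ]
    push_cast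
    rfl
  have hζtop : ∀ j, 2 * n + 1 ≤ j → ζ ^ j = 0 := by
    intro j hj
    obtain ⟨c', rfl⟩ := Nat.exists_eq_add_of_le hj
    rw [pow_add, h5, zero_mul]
  have hζv2 : ζ ^ (2 * n) * v = φ (L ^ (2 * n)) * ζ ^ (2 * n) := by
    rw [hv, mul_sum, sum_eq_single (2 * n)]
    · rw [show 2 * n + 1 - 1 - 2 * n = 0 by omega, pow_zero, mul_one, (even_two_mul n).neg_pow,
        map_pow]
      ring
    · intro a ha hne
      rw [mem_range] at ha
      have e1 : ζ ^ (2 * n) * ((-φ L) ^ a * ζ ^ (2 * n + 1 - 1 - a)) =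
          (-φ L) ^ a * ζ ^ (2 * n + (2 * n + 1 - 1 - a)) := by
        rw [pow_add]
        ring
      rw [e1, hζtop _ (by omega), mul_zero]
    · intro h
      exact absurd (mem_range.2 (by omega)) h
  have hqv : T.deg Y (v ^ 2) = (2 * n + 1) * (c * T.deg X (L ^ (2 * n))) := by
    rw [hvv, map_smul, hζv2, h8, smul_eq_mul]
  have hqv0 : 0 < T.deg Y (v ^ 2) := by
    have := hF.pos hL
    rw [← hd] at this
    rw [hqv]
    positivity
  have hvm : v ∈ T.gr Y (2 * n) := by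
    rw [hv]
    apply Submodule.sum_mem
    intro a ha
    rw [mem_range] at ha
    have e1 := T.num.graded.mul_mem (pow_mem (Submodule.neg_mem _ (h2 1 L (hF.mem hL))) a)
      (pow_mem h3 (2 * n + 1 - 1 - a))
    rwa [show 1 * a + 1 * (2 * n + 1 - 1 - a) = 2 * n by omega] at e1
  -- the class of `z` on `Y`
  obtain ⟨y, hy⟩ : ∃ y : T.N Y, y = φ z * Γ := ⟨_, rfl⟩
  have hym : y ∈ T.gr Y (2 * n) := by
    rw [hy, two_mul]
    exact T.num.graded.mul_mem (h2 n z hz) h4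
  have hyk : (φ L + ζ) * y = 0 := by
    have e1 : φ L * φ z = 0 := by rw [← map_mul, hk, map_zero]
    rw [hy]
    linear_combination Γ * e1 + φ z * h6
  have hqy : T.deg Y (y ^ 2) = T.deg S (g ^ 2) ^ n * T.deg X (z ^ 2) := by
    rw [hy, mul_pow, ← map_pow, h9]
  have hqy0 : T.deg Y (y ^ 2) < 0 := by
    have e1 : T.deg S (g ^ 2) ^ n * T.deg X (z ^ 2) =
        (-T.deg S (g ^ 2)) ^ n * ((-1) ^ n * T.deg X (z ^ 2)) := by
      rw [neg_pow (T.deg S (g ^ 2)) n]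
      have e2 : ((-1 : ℚ) ^ n) * (-1) ^ n = 1 := by rw [← mul_pow]; norm_num
      linear_combination (-(T.deg S (g ^ 2) ^ n * T.deg X (z ^ 2))) * e2
    rw [hqy, e1]
    exact mul_neg_of_pos_of_neg (pow_pos (neg_pos.2 hS.deg_g) n) hneg
  have hyv : v * y = 0 := by
    rw [hv, sum_mul]
    apply sum_eq_zero
    intro a ha
    rw [mem_range] at ha
    have e1 : φ L * φ z = 0 := by rw [← map_mul, hk, map_zero]
    rcases a with - | a
    · obtain ⟨m, hm⟩ : ∃ m, 2 * n + 1 - 1 - 0 = m + 1 := ⟨2 * n - 1, by omega⟩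
      rw [hm, hy]
      linear_combination (φ z * ζ ^ m) * h6
    · rw [hy]
      linear_combination (-(-φ L) ^ a * ζ ^ (2 * n + 1 - 1 - (a + 1)) * Γ) * e1
  -- the four squares
  obtain ⟨r, hr⟩ := four_squares (q := -T.deg Y (y ^ 2) / T.deg Y (v ^ 2))
    (div_pos (neg_pos.2 hqy0) hqv0)
  -- the product with `S × S`
  obtain ⟨ψ, hψ⟩ : ∃ ψ : T.N Y → T.N S → T.N S → T.N ((Y.prod S).prod S), ψ = fun a b b' =>
    T.p₁ (Y.prod S) S (T.p₁ Y S a * T.p₂ Y S b) * T.p₂ (Y.prod S) S b' := ⟨_, rfl⟩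
  have hψm : ∀ (a : T.N Y) (b b' b₂ b₂' : T.N S) (a₂ : T.N Y),
      T.deg _ (ψ a b b' * ψ a₂ b₂ b₂') =
        T.deg Y (a * a₂) * T.deg S (b * b₂) * T.deg S (b' * b₂') := by
    intro a b b' b₂ b₂' a₂
    rw [hψ]
    simp only
    rw [deg_pp, deg_pp]
  have hψd : ∀ (a : T.N Y) (b b' : T.N S), a ∈ T.gr Y (2 * n) → b ∈ T.gr S 1 → b' ∈ T.gr S 1 →
      ψ a b b' ∈ T.gr _ (2 * n + 2) := by
    intro a b b' ha hb hb'
    rw [hψ]
    have h11 := T.num.graded.mul_mem (T.num.products.p₁_mem (Y := S) (T.num.graded.mul_mem (T.num.products.p₁_mem (Y := S) ha)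
      (T.num.products.p₂_mem (X := Y) hb))) (T.num.products.p₂_mem (X := Y.prod S) hb')
    exact h11
  obtain ⟨M, hM⟩ : ∃ M : T.N ((Y.prod S).prod S), M = T.p₁ (Y.prod S) S (T.p₁ Y S (φ L + ζ) +
    T.p₂ Y S f) + T.p₂ (Y.prod S) S f := ⟨_, rfl⟩
  have hψk : ∀ (a : T.N Y) (b b' : T.N S), (φ L + ζ) * a = 0 → f * b = 0 → f * b' = 0 →
      M * ψ a b b' = 0 := by
    intro a b b' ha hb hb'
    have e1 : T.p₁ (Y.prod S) S (T.p₁ Y S (φ L + ζ)) * T.p₁ (Y.prod S) S (T.p₁ Y S a) = 0 := by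
      rw [← map_mul, ← map_mul, ha, map_zero, map_zero]
    have e2 : T.p₁ (Y.prod S) S (T.p₂ Y S f) * T.p₁ (Y.prod S) S (T.p₂ Y S b) = 0 := by
      rw [← map_mul, ← map_mul, hb, map_zero, map_zero]
    have e3 : T.p₂ (Y.prod S) S f * T.p₂ (Y.prod S) S b' = 0 := by
      rw [← map_mul, hb', map_zero]
    rw [hM, hψ]
    simp only
    rw [map_add (T.p₁ (Y.prod S) S), map_mul (T.p₁ (Y.prod S) S)]
    linear_combination (T.p₁ (Y.prod S) S (T.p₂ Y S b) * T.p₂ (Y.prod S) S b') * e1 +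
      (T.p₁ (Y.prod S) S (T.p₁ Y S a) * T.p₂ (Y.prod S) S b') * e2 +
      (T.p₁ (Y.prod S) S (T.p₁ Y S a) * T.p₁ (Y.prod S) S (T.p₂ Y S b)) * e3
  have hgg' : T.deg S (g * g') = 0 := by rw [hS.gg', map_zero]
  have hg'g : T.deg S (g' * g) = 0 := by rw [mul_comm, hS.gg', map_zero]
  have hg2 : T.deg S (g * g) = T.deg S (g ^ 2) := by rw [sq]
  have hg'2 : T.deg S (g' * g') = T.deg S (g ^ 2) := by rw [← sq, hS.deg_g']
  have hyv' : T.deg Y (y * v) = 0 := by rw [mul_comm, hyv, map_zero]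
  have hvy' : T.deg Y (v * y) = 0 := by rw [hyv, map_zero]
  have hyy : T.deg Y (y * y) = T.deg Y (y ^ 2) := by rw [sq]
  have hvv' : T.deg Y (v * v) = T.deg Y (v ^ 2) := by rw [sq]
  refine ⟨(Y.prod S).prod S, M, ψ y g g + (r 0 • ψ v g g + r 1 • ψ v g g' + r 2 • ψ v g' g +
    r 3 • ψ v g' g'), 2 * n + 2, ?_, ?_, ?_, ?_, ?_, ?_⟩
  · rw [hM]
    exact hF.prod_surface (hF.prod_surface h10)
  · refine Submodule.add_mem _ (hψd _ _ _ hym hS.g_mem hS.g_mem) (Submodule.add_mem _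
      (Submodule.add_mem _ (Submodule.add_mem _ ?_ ?_) ?_) ?_)
    · exact Submodule.smul_mem _ _ (hψd _ _ _ hvm hS.g_mem hS.g_mem)
    · exact Submodule.smul_mem _ _ (hψd _ _ _ hvm hS.g_mem hS.g'_mem)
    · exact Submodule.smul_mem _ _ (hψd _ _ _ hvm hS.g'_mem hS.g_mem)
    · exact Submodule.smul_mem _ _ (hψd _ _ _ hvm hS.g'_mem hS.g'_mem)
  · intro h0
    have e1 := congrArg (fun t => T.deg _ (t * ψ y g g)) h0
    simp only [zero_mul, map_zero, add_mul, smul_mul_assoc, map_add, map_smul, hψm, hvy', hyy,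
      hg2, zero_mul, smul_zero, add_zero] at e1
    have e2 : T.deg Y (y ^ 2) * T.deg S (g ^ 2) * T.deg S (g ^ 2) ≠ 0 :=
      mul_ne_zero (mul_ne_zero hqy0.ne hS.deg_g.ne) hS.deg_g.ne
    exact e2 e1
  · rw [dim_prod, dim_prod, h1, hS.dim]
    omega
  · rw [mul_add, mul_add, mul_add, mul_add, mul_smul_comm, mul_smul_comm, mul_smul_comm,
      mul_smul_comm, hψk _ _ _ hyk hS.fg hS.fg, hψk _ _ _ hv1 hS.fg hS.fg,
      hψk _ _ _ hv1 hS.fg hS.fg', hψk _ _ _ hv1 hS.fg' hS.fg, hψk _ _ _ hv1 hS.fg' hS.fg']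
    simp
  · have hs : r 0 ^ 2 + r 1 ^ 2 + r 2 ^ 2 + r 3 ^ 2 = -T.deg Y (y ^ 2) / T.deg Y (v ^ 2) := by
      rw [← hr, Fin.sum_univ_four]
    have hs2 : T.deg Y (y ^ 2) + (r 0 ^ 2 + r 1 ^ 2 + r 2 ^ 2 + r 3 ^ 2) * T.deg Y (v ^ 2) = 0 := by
      rw [hs, div_mul_cancel₀ _ hqv0.ne', add_neg_cancel]
    rw [sq]
    simp only [add_mul, mul_add, smul_mul_assoc, mul_smul_comm, map_add, map_smul, hψm, hvy', hyv',
      hyy, hvv', hg2, hg'2, hgg', hg'g, zero_mul, mul_zero, smul_zero, add_zero, zero_add,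
      smul_eq_mul]
    linear_combination (T.deg S (g ^ 2) * T.deg S (g ^ 2)) * hs2

/-- the product with `S` raises the codimension of an isotropic class -/
lemma raise {L z : T.N X} {n : ℕ} (hL : Pol X L) (hz : z ∈ T.gr X n) (hz0 : z ≠ 0)
    (hd : 2 * n = X.dim) (hk : L * z = 0) (a : ℕ) :
    ∃ (Y : 𝒱.Obj) (M w : T.N Y), Pol Y M ∧ w ∈ T.gr Y (n + a) ∧ w ≠ 0 ∧ 2 * (n + a) = Y.dim ∧
      M * w = 0 ∧ T.deg Y (w ^ 2) = T.deg S (g ^ 2) ^ a * T.deg X (z ^ 2) := by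
  obtain ⟨Y, φ, ζ, Γ, c, h1, h2, h3, h4, h5, h6, h7, h8, h9, h10⟩ := tower hF hE hS hL a
  refine ⟨Y, φ L + ζ, φ z * Γ, h10, T.num.graded.mul_mem (h2 n z hz) h4, ?_, by omega, ?_, ?_⟩
  · intro h0
    obtain ⟨j, b, -, -, hb⟩ := exists_dual hz hz0
    have e1 := h9 (z * b)
    have e2 : φ (z * b) * Γ ^ 2 = (φ z * Γ) * (φ b * Γ) := by
      rw [map_mul]
      ring
    rw [e2, h0, zero_mul, map_zero] at e1
    exact mul_ne_zero (pow_ne_zero a hS.deg_g.ne) hb e1.symm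
  · have e1 : φ L * φ z = 0 := by rw [← map_mul, hk, map_zero]
    linear_combination Γ * e1 + φ z * h6
  · rw [mul_pow, ← map_pow, h9]

/-- **Positivity follows from anisotropy.** -/
theorem hodge_iff_anisotropic (A : Set ℕ) (hA : ∀ n, ∃ m ∈ A, n ≤ m) :
    (∀ (X : 𝒱.Obj) (L : T.N X), Pol X L → Hodge T.toNumData X L) ↔
      ∀ (X : 𝒱.Obj) (L : T.N X), Pol X L → ∀ n ∈ A, 2 * n = X.dim → Anisotropic T.toNumData X L n := by
  constructor
  · intro h X L hL n _ hd z hz hk h0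
    by_contra hne
    have h1 := h X L hL n 0 (by omega) z hz hne (by rwa [zero_add, pow_one])
    rw [pow_zero, one_mul, h0, mul_zero] at h1
    exact lt_irrefl _ h1
  · intro h
    have key : ∀ (X : 𝒱.Obj) (L : T.N X), Pol X L → ∀ n : ℕ, 2 * n = X.dim →
        Anisotropic T.toNumData X L n := by
      intro X L hL n hd z hz hk h0
      by_contra hne
      obtain ⟨m, hm, hnm⟩ := hA n
      obtain ⟨a, rfl⟩ := Nat.exists_eq_add_of_le hnm
      obtain ⟨Y, M, w, h1, h2, h3, h4, h5, h6⟩ := raise hF hE hS hL hz hne hd hk a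
      exact h3 (h Y M h1 (n + a) hm h4 w h2 h5 (by rw [h6, h0, mul_zero]))
    intro X L hL i s hd x hx hx0 hk
    obtain ⟨Y, M, z, n, c, h1, h2, h3, h4, h5, h6, h7⟩ := to_middle hF hE hS s X L x i hL hx hx0 hd hk
    by_contra hcon
    push Not at hcon
    have h8 : (-1) ^ n * T.deg Y (z ^ 2) ≤ 0 := by
      rw [h7]
      exact mul_nonpos_of_nonneg_of_nonpos h6.le hcon
    rcases h8.lt_or_eq with h9 | h9
    · -- raise the codimension by one in order to have `n ≥ 1`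
      obtain ⟨Y', M', z', k1, k2, k3, k4, k5, k6⟩ := raise hF hE hS h1 h2 h3 h4 h5 1
      have k7 : (-1) ^ (n + 1) * T.deg Y' (z' ^ 2) < 0 := by
        rw [k6, pow_one, pow_succ]
        have := mul_neg_of_pos_of_neg (neg_pos.2 hS.deg_g) h9
        linarith
      obtain ⟨W, M₂, w, m, l1, l2, l3, l4, l5, l6⟩ := isotropic hF hE hS k1 k2 (by omega) k4 k5 k7
      exact l3 (key W M₂ l1 m l4 w l2 l5 l6)
    · have h10 : T.deg Y (z ^ 2) = 0 :=
        (mul_eq_zero.1 h9).resolve_left (pow_ne_zero _ (by norm_num))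
      exact h3 (key Y M h1 n h4 z h2 h5 h10)

/-- the product with `S` doubles the dimension of a totally isotropic subspace -/
lemma double {ι : Type} [Fintype ι] {L : T.N X} {n : ℕ} {w : ι → T.N X}
    (hw : LinearIndependent ℚ w) (h1 : ∀ i, w i ∈ T.gr X n) (h2 : ∀ i, L * w i = 0)
    (h3 : ∀ i j, T.deg X (w i * w j) = 0) :
    ∃ w' : ι ⊕ ι → T.N (X.prod S), LinearIndependent ℚ w' ∧ (∀ i, w' i ∈ T.gr (X.prod S) (n + 1)) ∧
      (∀ i, (T.p₁ X S L + T.p₂ X S f) * w' i = 0) ∧ ∀ i j, T.deg (X.prod S) (w' i * w' j) = 0 := by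
  have hgg' : T.deg S (g * g') = 0 := by rw [hS.gg', map_zero]
  have hg'g : T.deg S (g' * g) = 0 := by rw [mul_comm, hS.gg', map_zero]
  have hg2 : T.deg S (g * g) ≠ 0 := by rw [← sq]; exact hS.deg_g.ne
  have hg'2 : T.deg S (g' * g') ≠ 0 := by rw [← sq, hS.deg_g']; exact hS.deg_g.ne
  have hk : ∀ (a : T.N X) (b : T.N S), L * a = 0 → f * b = 0 →
      (T.p₁ X S L + T.p₂ X S f) * (T.p₁ X S a * T.p₂ X S b) = 0 := by
    intro a b ha hb
    have e1 : T.p₁ X S L * T.p₁ X S a = 0 := by rw [← map_mul, ha, map_zero]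
    have e2 : T.p₂ X S f * T.p₂ X S b = 0 := by rw [← map_mul, hb, map_zero]
    linear_combination T.p₂ X S b * e1 + T.p₁ X S a * e2
  refine ⟨Sum.elim (fun i => T.p₁ X S (w i) * T.p₂ X S g) (fun i => T.p₁ X S (w i) * T.p₂ X S g'),
    ?_, ?_, ?_, ?_⟩
  · rw [Fintype.linearIndependent_iff]
    intro c hc
    rw [Fintype.sum_sum_type] at hc
    simp only [Sum.elim_inl, Sum.elim_inr] at hc
    have e1 : ∀ c' : ι → ℚ, ∀ b : T.N S, ∑ i, c' i • (T.p₁ X S (w i) * T.p₂ X S b) =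
        T.p₁ X S (∑ i, c' i • w i) * T.p₂ X S b := by
      intro c' b
      rw [map_sum, sum_mul]
      apply sum_congr rfl
      intro i _
      rw [map_smul, smul_mul_assoc]
    rw [e1, e1] at hc
    have hm : ∀ c' : ι → ℚ, ∑ i, c' i • w i ∈ T.gr X n := fun c' =>
      Submodule.sum_mem _ (fun i _ => Submodule.smul_mem _ _ (h1 i))
    have e2 : ∑ i, c (Sum.inl i) • w i = 0 := by
      apply T.num.numerical (hm _)
      intro j b _ _
      have e3 := congrArg (fun t => T.deg _ (t * (T.p₁ X S b * T.p₂ X S g))) hc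
      simp only [add_mul, map_add, zero_mul, map_zero] at e3
      rw [deg_pp, deg_pp, hg'g, mul_zero, add_zero] at e3
      exact (mul_eq_zero.1 e3).resolve_right hg2
    have e4 : ∑ i, c (Sum.inr i) • w i = 0 := by
      apply T.num.numerical (hm _)
      intro j b _ _
      have e3 := congrArg (fun t => T.deg _ (t * (T.p₁ X S b * T.p₂ X S g'))) hc
      simp only [add_mul, map_add, zero_mul, map_zero] at e3
      rw [deg_pp, deg_pp, hgg', mul_zero, zero_add] at e3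
      exact (mul_eq_zero.1 e3).resolve_right hg'2
    have h5 := Fintype.linearIndependent_iff.1 hw
    rintro (i | i)
    · exact h5 _ e2 i
    · exact h5 _ e4 i
  · rintro (i | i)
    · exact T.num.graded.mul_mem (T.num.products.p₁_mem (h1 i)) (T.num.products.p₂_mem hS.g_mem)
    · exact T.num.graded.mul_mem (T.num.products.p₁_mem (h1 i)) (T.num.products.p₂_mem hS.g'_mem)
  · rintro (i | i)
    · exact hk _ _ (h2 i) hS.fg
    · exact hk _ _ (h2 i) hS.fg'
  · rintro (i | i) (j | j) <;> simp only [Sum.elim_inl, Sum.elim_inr] <;> rw [deg_pp, h3, zero_mul]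

/-- an isotropic class gives totally isotropic subspaces of arbitrary dimension -/
lemma many (a : ℕ) : ∀ (ι : Type) [Fintype ι] (X : 𝒱.Obj) (L : T.N X) (n : ℕ) (w : ι → T.N X),
    Pol X L → 2 * n = X.dim → LinearIndependent ℚ w → (∀ i, w i ∈ T.gr X n) →
    (∀ i, L * w i = 0) → (∀ i j, T.deg X (w i * w j) = 0) →
    ∃ (Y : 𝒱.Obj) (M : T.N Y), Pol Y M ∧ 2 * (n + a) = Y.dim ∧
      HasIsotropic T.toNumData Y M (n + a) (2 ^ a * Fintype.card ι) := by
  induction a with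
  | zero =>
    intro ι _ X L n w hL hd hw h1 h2 h3
    refine ⟨X, L, hL, hd, ?_⟩
    rw [pow_zero, one_mul]
    refine ⟨w ∘ (Fintype.equivFin ι).symm, hw.comp _ (Fintype.equivFin ι).symm.injective,
      fun i => h1 _, fun i => h2 _, fun i j => h3 _ _⟩
  | succ a ih =>
    intro ι _ X L n w hL hd hw h1 h2 h3
    obtain ⟨w', k1, k2, k3, k4⟩ := double hF hE hS hw h1 h2 h3
    obtain ⟨Y, M, l1, l2, l3⟩ := ih (ι ⊕ ι) _ _ (n + 1) w' (hF.prod_surface hL)
      (by rw [dim_prod, hS.dim]; omega) k1 k2 k3 k4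
    refine ⟨Y, M, l1, by omega, ?_⟩
    rw [show n + (a + 1) = n + 1 + a by omega]
    rw [Fintype.card_sum] at l3
    rw [pow_succ, mul_assoc, two_mul]
    exact l3

/-- **The Hodge type conjecture, anisotropy, and bounded Witt indices.** -/
theorem tfae (A : Set ℕ) (hA : ∀ n, ∃ m ∈ A, n ≤ m) :
    List.TFAE [∀ (X : 𝒱.Obj) (L : T.N X), Pol X L → Hodge T.toNumData X L,
      ∀ (X : 𝒱.Obj) (L : T.N X), Pol X L → ∀ n ∈ A, 2 * n = X.dim → Anisotropic T.toNumData X L n,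
      ∃ R : ℕ, ∀ (X : 𝒱.Obj) (L : T.N X), Pol X L → ∀ n ∈ A, 2 * n = X.dim → ∀ r : ℕ,
        HasIsotropic T.toNumData X L n r → r ≤ R] := by
  have h12 := hodge_iff_anisotropic hF hE hS A hA
  tfae_have 1 ↔ 2 := h12
  tfae_have 2 → 3 := by
    intro h
    refine ⟨0, fun X L hL n hn hd r hr => ?_⟩
    obtain ⟨w, hw, h1, h2, h3⟩ := hr
    by_contra hcon
    have i : Fin r := ⟨0, by omega⟩
    exact hw.ne_zero i (h X L hL n hn hd (w i) (h1 i) (h2 i) (by rw [sq]; exact h3 i i))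
  tfae_have 3 → 1 := by
    rintro ⟨R, hR⟩
    -- anisotropy in all codimensions
    have h : ∀ (X : 𝒱.Obj) (L : T.N X), Pol X L → ∀ n ∈ (Set.univ : Set ℕ), 2 * n = X.dim →
        Anisotropic T.toNumData X L n := by
      intro X L hL n _ hd z hz hk h0
      by_contra hne
      obtain ⟨m, hm, hnm⟩ := hA (n + R)
      obtain ⟨a, rfl⟩ := Nat.exists_eq_add_of_le (show n ≤ m by omega)
      obtain ⟨Y, M, l1, l2, l3⟩ := many hF hE hS a Unit X L n (fun _ => z) hL hd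
        (LinearIndependent.of_subsingleton () hne) (fun _ => hz) (fun _ => hk)
        (fun _ _ => by rw [← sq]; exact h0)
      have h4 := hR Y M l1 (n + a) hm l2 _ l3
      rw [Fintype.card_unit, mul_one] at h4
      have h5 : a < 2 ^ a := Nat.lt_two_pow_self
      omega
    exact (hodge_iff_anisotropic hF hE hS Set.univ (fun n => ⟨n, Set.mem_univ _, le_rfl⟩)).2 h
  tfae_finish

omit hF hE hS in
/-- **The Hodge type conjecture, anisotropy, and bounded Witt indices.** -/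
theorem main {T : NumData.{u, v} 𝒱} (hT : IsNum T) {Pol : ∀ X : 𝒱.Obj, T.N X → Prop}
    {e : T.N E} {f g g' : T.N S} (hE : IsCurve T E e) (hS : IsSurface T S f g g')
    (hF : IsFamily T Pol E e S f) (A : Set ℕ) (hA : ∀ n, ∃ m ∈ A, n ≤ m) :
    List.TFAE [AllHodge T Pol, AllAnisotropic T Pol A, BoundedWitt T Pol A] :=
  tfae (T := { toNumData := T, num := hT }) hF hE hS A hA

end Pool.Agent.U935.AN
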